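import Pool.Agent.W610.HY.Stm

set_option autoImplicit false

namespace Pool.Agent.W264.HY.LTWO

open Pool.Agent.W610.HY MeasureTheory

theorem mean0 (F : ℂ → ℂ) (hF : Differentiable ℂ F) :
    (∫ θ in (0:ℝ)..(2 * Real.pi), F (circleMap 0 1 θ)) = 2 * Real.pi * F 0 := by
  have h := Complex.circleIntegral_sub_inv_smul_of_differentiable_on_off_countable
    (E := ℂ) (R := 1) (c := 0) (w := 0) (f := F) Set.countable_empty
    (by simp) hF.continuous.continuousOn (fun x _ => hF x)
  rw [circleIntegral] at h
  have h2 : ∀ θ : ℝ, deriv (circleMap 0 1) θ • ((circleMap 0 1 θ - 0)⁻¹ • F (circleMap 0 1 θ))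
      = Complex.I * F (circleMap 0 1 θ) := by
    intro θ
    have hne : circleMap 0 1 θ ≠ 0 := circleMap_ne_center one_ne_zero
    simp only [deriv_circleMap, sub_zero, smul_eq_mul]
    field_simp
  simp only [h2] at h
  rw [intervalIntegral.integral_const_mul, smul_eq_mul] at h
  have hI : Complex.I ≠ 0 := Complex.I_ne_zero
  have h3 : Complex.I * (∫ θ in (0:ℝ)..(2 * Real.pi), F (circleMap 0 1 θ))
      = Complex.I * (2 * Real.pi * F 0) := by
    rw [h]; ring
  exact mul_left_cancel₀ hI h3

theorem main : LTWO := by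
  intro p him hre n m hnm
  set s : ℝ := ∑ k ∈ Finset.Ico n m, ((p k).eval 0).re with hs
  let g : ℂ → ℂ := fun z => Complex.exp (-(∑ k ∈ Finset.Ico n m, (p k).eval z))
  have hg : Differentiable ℂ g := by
    apply Differentiable.cexp
    apply Differentiable.neg
    apply Differentiable.fun_sum
    intro k _
    exact (p k).differentiable
  have hg0 : g 0 = ((Real.exp (-s) : ℝ) : ℂ) := by
    have h1 : (∑ k ∈ Finset.Ico n m, (p k).eval 0) = ((s : ℝ) : ℂ) := by
      rw [hs, Complex.ofReal_sum]
      apply Finset.sum_congr rfl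
      intro k _
      apply Complex.ext
      · simp
      · simp [him k]
    simp only [g]
    rw [h1, ← Complex.ofReal_neg, ← Complex.ofReal_exp]
  have hbound : ∀ z : ℂ, ‖z‖ = 1 →
      ‖hh p m z - hh p n z‖ ^ 2 ≤ 2 - 2 * (g z).re := by
    intro z hz
    have h1 : hh p m z = hh p n z * g z := by
      simp only [hh, g]
      rw [← Complex.exp_add, ← neg_add, Finset.sum_range_add_sum_Ico _ hnm]
    have hn1 : ‖hh p n z‖ ≤ 1 := by
      simp only [hh]
      rw [Complex.norm_exp, Real.exp_le_one_iff, Complex.neg_re, Complex.re_sum]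
      have : 0 ≤ ∑ k ∈ Finset.range n, ((p k).eval z).re :=
        Finset.sum_nonneg (fun k _ => hre k z hz)
      linarith
    have hg1 : ‖g z‖ ≤ 1 := by
      simp only [g]
      rw [Complex.norm_exp, Real.exp_le_one_iff, Complex.neg_re, Complex.re_sum]
      have : 0 ≤ ∑ k ∈ Finset.Ico n m, ((p k).eval z).re :=
        Finset.sum_nonneg (fun k _ => hre k z hz)
      linarith
    have h2 : hh p m z - hh p n z = hh p n z * (g z - 1) := by rw [h1]; ring
    rw [h2, norm_mul, mul_pow]
    have h3 : ‖hh p n z‖ ^ 2 ≤ 1 := by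
      have := norm_nonneg (hh p n z)
      nlinarith
    have h4 : ‖g z - 1‖ ^ 2 = ‖g z‖ ^ 2 - 2 * (g z).re + 1 := by
      rw [← Complex.normSq_eq_norm_sq, ← Complex.normSq_eq_norm_sq, Complex.normSq_apply,
        Complex.normSq_apply]
      simp
      ring
    have h5 : ‖g z‖ ^ 2 ≤ 1 := by
      have := norm_nonneg (g z)
      nlinarith
    have h6 : 0 ≤ ‖g z - 1‖ ^ 2 := sq_nonneg _
    nlinarith
  have hcg : Continuous fun θ : ℝ => g (circleMap 0 1 θ) :=
    hg.continuous.comp (continuous_circleMap 0 1)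
  have hch : ∀ k, Continuous fun θ : ℝ => hh p k (circleMap 0 1 θ) := by
    intro k
    simp only [hh]
    apply Continuous.cexp
    apply Continuous.neg
    apply continuous_finsetSum
    intro i _
    exact (p i).continuous.comp (continuous_circleMap 0 1)
  have hle : (∫ θ in (0:ℝ)..(2 * Real.pi),
      ‖hh p m (circleMap 0 1 θ) - hh p n (circleMap 0 1 θ)‖ ^ 2)
      ≤ ∫ θ in (0:ℝ)..(2 * Real.pi), (2 - 2 * (g (circleMap 0 1 θ)).re) := by
    apply intervalIntegral.integral_mono_on
    · positivity
    · exact (((hch m).sub (hch n)).norm.pow 2).intervalIntegrable _ _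
    · exact (continuous_const.sub (continuous_const.mul (Complex.continuous_re.comp hcg))).intervalIntegrable _ _
    · intro θ _
      apply hbound
      simp [norm_circleMap_zero]
  have hint : (∫ θ in (0:ℝ)..(2 * Real.pi), (g (circleMap 0 1 θ)).re)
      = 2 * Real.pi * Real.exp (-s) := by
    have h1 := mean0 g hg
    have h2 : (∫ θ in (0:ℝ)..(2 * Real.pi), (g (circleMap 0 1 θ)).re)
        = (∫ θ in (0:ℝ)..(2 * Real.pi), g (circleMap 0 1 θ)).re := by
      have h3 := Complex.reCLM.intervalIntegral_comp_comm (μ := volume)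
        (a := (0:ℝ)) (b := 2 * Real.pi) (hcg.intervalIntegrable _ _)
      simpa using h3
    rw [h2, h1, hg0]
    have h4 : (2 * (Real.pi : ℂ) * ((Real.exp (-s) : ℝ) : ℂ))
        = ((2 * Real.pi * Real.exp (-s) : ℝ) : ℂ) := by push_cast; ring
    rw [h4, Complex.ofReal_re]
  have hval : (∫ θ in (0:ℝ)..(2 * Real.pi), (2 - 2 * (g (circleMap 0 1 θ)).re))
      = 4 * Real.pi * (1 - Real.exp (-s)) := by
    rw [intervalIntegral.integral_sub]
    · rw [intervalIntegral.integral_const_mul, hint, intervalIntegral.integral_const]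
      simp only [smul_eq_mul]
      ring
    · exact continuous_const.intervalIntegrable _ _
    · exact (continuous_const.mul (Complex.continuous_re.comp hcg)).intervalIntegrable _ _
  refine hle.trans ?_
  rw [hval]
  have h7 := Real.add_one_le_exp (-s)
  have h8 : 1 - Real.exp (-s) ≤ s := by linarith
  have h9 : 0 ≤ 4 * Real.pi := by positivity
  exact mul_le_mul_of_nonneg_left h8 h9

end Pool.Agent.W264.HY.LTWO

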